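import Mathlib
import Pool.Agent.H82.PaleyMain

/-!
# Maximal cliques of generalized Paley graphs: an attainable limit outside the conjectured set

For `d = 3` and `q = p²`, `p ≡ 2 mod 3` prime, `p ≥ 100`, the graph `GP(q³,3)` has a maximal clique with at least `13 q` and
at most `53 q` elements; so some real number in `[13,53]` is an attainable limit for `d = 3`.
-/

set_option autoImplicit false

open Filter Topology

namespace Pool.Agent.Results.MP_28de5a_co.LimitAboveThirteen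

/-- The generalized Paley graph on the field `F` with exponent `d`: distinct `x, y` are adjacent iff `x - y` or `y - x` is
the `d`-th power of a nonzero element. -/
def paley (F : Type) [Field F] (d : ℕ) : SimpleGraph F where
  Adj x y := x ≠ y ∧ ((∃ z : F, z ≠ 0 ∧ x - y = z ^ d) ∨ ∃ z : F, z ≠ 0 ∧ y - x = z ^ d)
  symm := ⟨fun _ _ h => ⟨h.1.symm, h.2.symm⟩⟩
  loopless := ⟨fun _ h => h.1 rfl⟩

/-- `C` is a maximal clique of the generalized Paley graph on `F` with exponent `d`. -/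
def IsMaxClique {F : Type} [Field F] (d : ℕ) (C : Finset F) : Prop :=
  Maximal (fun s : Finset F => (paley F d).IsClique (s : Set F)) C

/-- The radical of `n`: the product of the distinct primes dividing `n`. -/
def rad (n : ℕ) : ℕ := ∏ p ∈ n.primeFactors, p

/-- The set `{0} ∪ {1/m : m ≥ 1, rad m ∣ rad d}`. -/
def limitSet (d : ℕ) : Set ℝ := {x | x = 0 ∨ ∃ m : ℕ, 1 ≤ m ∧ rad m ∣ rad d ∧ x = 1 / (m : ℝ)}

/-- `x` is an attainable limit for `d`: there are odd prime powers `q 0 < q 1 < ...`, all `≡ 1 mod d`, fields `F j` with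
`(q j)^d` elements and maximal cliques `C j` of the graph on `F j` with `|C j| / q j → x`. -/
def Attainable (d : ℕ) (x : ℝ) : Prop :=
  ∃ q n : ℕ → ℕ, StrictMono q ∧ (∀ j, IsPrimePow (q j) ∧ Odd (q j) ∧ q j ≡ 1 [MOD d]) ∧
    (∀ j, ∃ (F : Type) (_ : Field F) (_ : Fintype F), Fintype.card F = q j ^ d ∧
      ∃ C : Finset F, IsMaxClique d C ∧ C.card = n j) ∧
    Tendsto (fun j => (n j : ℝ) / (q j : ℝ)) atTop (𝓝 x)

private lemma adj_iff {F : Type} [Field F] (x y : F) :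
    (paley F 3).Adj x y ↔
      (SimpleGraph.fromRel (fun x y : F => ∃ z : F, z ^ 3 = x - y)).Adj x y := by
  rw [SimpleGraph.fromRel_adj]
  constructor
  · rintro ⟨h1, h2⟩
    refine ⟨h1, ?_⟩
    rcases h2 with ⟨z, _, hz⟩ | ⟨z, _, hz⟩
    · exact Or.inl ⟨z, hz.symm⟩
    · exact Or.inr ⟨z, hz.symm⟩
  · rintro ⟨h1, h2⟩
    refine ⟨h1, ?_⟩
    rcases h2 with ⟨z, hz⟩ | ⟨z, hz⟩
    · refine Or.inl ⟨z, ?_, hz.symm⟩
      rintro rfl
      rw [zero_pow (by norm_num)] at hz
      exact h1 (sub_eq_zero.1 hz.symm)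
    · refine Or.inr ⟨z, ?_, hz.symm⟩
      rintro rfl
      rw [zero_pow (by norm_num)] at hz
      exact h1 (sub_eq_zero.1 hz.symm).symm

private lemma graph_eq {F : Type} [Field F] :
    paley F 3 = SimpleGraph.fromRel (fun x y : F => ∃ z : F, z ^ 3 = x - y) := by
  ext x y
  exact adj_iff x y

private lemma clique (p : ℕ) (hp : p.Prime) (hp3 : p % 3 = 2) (hp100 : 100 ≤ p) (F : Type)
    [Field F] [Fintype F] (hF : Fintype.card F = (p ^ 2) ^ 3) :
    ∃ C : Finset F, IsMaxClique 3 C ∧ 13 * p ^ 2 ≤ C.card ∧ C.card ≤ 53 * p ^ 2 := by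
  haveI : Fact p.Prime := ⟨hp⟩
  haveI : CharP F p := by
    obtain ⟨p', hp'⟩ := CharP.exists F
    obtain ⟨k, hp'p, hk⟩ := @FiniteField.card F _ _ p' hp'
    have h1 : p' ^ (k : ℕ) = p ^ 6 := by rw [← hk, hF]; ring
    have h2 : p' = p := by
      have h3 : p' ∣ p ^ 6 := h1 ▸ dvd_pow_self p' k.ne_zero
      exact (Nat.prime_dvd_prime_iff_eq hp'p hp).1 (hp'p.dvd_of_dvd_pow h3)
    rwa [h2] at hp'
  obtain ⟨M, h1, h2, h3, h4⟩ := Pool.Agent.H82.Paley.exists_clique (F := F) p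
    (by rw [hF]; ring) hp3 hp100
  refine ⟨M, ?_, h3, h4⟩
  unfold IsMaxClique
  rw [graph_eq]
  refine ⟨h1, fun t ht hMt => ?_⟩
  rw [h2 t ht hMt]

/-- **Q1 fails**: for `d = 3` there is an attainable limit in `[13,53]`, so outside the conjectured set. Moreover for every
prime `p ≥ 100` with `p ≡ 2 mod 3` and every field with `(p²)³` elements the graph with exponent `3` has a maximal
clique with at least `13 p²` and at most `53 p²` elements. -/
theorem result :
    (∀ p : ℕ, p.Prime → p % 3 = 2 → 100 ≤ p → ∀ (F : Type) [Field F] [Fintype F],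
      Fintype.card F = (p ^ 2) ^ 3 →
        ∃ C : Finset F, IsMaxClique 3 C ∧ 13 * p ^ 2 ≤ C.card ∧ C.card ≤ 53 * p ^ 2) ∧
    (∃ x : ℝ, 13 ≤ x ∧ x ≤ 53 ∧ Attainable 3 x ∧ x ∉ limitSet 3) ∧
    ¬ ∀ d : ℕ, 2 ≤ d → ∀ x : ℝ, Attainable d x → x ∈ limitSet d := by
  have key : ∃ x : ℝ, 13 ≤ x ∧ x ≤ 53 ∧ Attainable 3 x ∧ x ∉ limitSet 3 := by
    -- a prime for every n
    have hprime : ∀ n : ℕ, ∃ p : ℕ, n ≤ p ∧ 100 ≤ p ∧ p.Prime ∧ p % 3 = 2 := by
      intro n
      have hu : IsUnit ((2 : ℕ) : ZMod 3) := by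
        rw [ZMod.isUnit_iff_coprime]
        norm_num
      obtain ⟨p, hpn, hpp, hp⟩ := Nat.forall_exists_prime_gt_and_eq_mod hu (max n 100)
      refine ⟨p, by omega, by omega, hpp, ?_⟩
      have h4 := (ZMod.natCast_eq_natCast_iff p 2 3).mp hp
      have h5 : p % 3 = 2 % 3 := h4
      omega
    -- a strictly increasing sequence of primes
    have hseq : ∃ P : ℕ → ℕ, StrictMono P ∧ ∀ n, 100 ≤ P n ∧ (P n).Prime ∧ P n % 3 = 2 := by
      obtain ⟨P, hP, hP2⟩ := Nat.exists_strictMono_subsequence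
        (P := fun p => 100 ≤ p ∧ p.Prime ∧ p % 3 = 2) (fun n => by
          obtain ⟨p, h1, h2, h3, h4⟩ := hprime (n + 1)
          exact ⟨p, by omega, h2, h3, h4⟩)
      exact ⟨P, hP, hP2⟩
    obtain ⟨P, hPmono, hP⟩ := hseq
    have hcl : ∀ n : ℕ, ∃ (F : Type) (_ : Field F) (_ : Fintype F), Fintype.card F = ((P n) ^ 2) ^ 3 ∧
        ∃ C : Finset F, IsMaxClique 3 C ∧ 13 * (P n) ^ 2 ≤ C.card ∧ C.card ≤ 53 * (P n) ^ 2 := by
      intro n
      haveI : Fact (P n).Prime := ⟨(hP n).2.1⟩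
      letI : Fintype (GaloisField (P n) 6) := Fintype.ofFinite _
      have hc : Fintype.card (GaloisField (P n) 6) = ((P n) ^ 2) ^ 3 := by
        rw [← Nat.card_eq_fintype_card, GaloisField.card (P n) 6 (by norm_num)]
        ring
      exact ⟨GaloisField (P n) 6, inferInstance, inferInstance, hc,
        clique (P n) (hP n).2.1 (hP n).2.2 (hP n).1 _ hc⟩
    choose F instF instFF hcard C hC1 hC2 hC3 using hcl
    set r : ℕ → ℝ := fun n => ((C n).card : ℝ) / (((P n) ^ 2 : ℕ) : ℝ) with hr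
    have hpos : ∀ n, (0 : ℝ) < (((P n) ^ 2 : ℕ) : ℝ) := by
      intro n
      have h6 : 0 < (P n) ^ 2 := pow_pos (hP n).2.1.pos 2
      exact_mod_cast h6
    have hrmem : ∀ n, r n ∈ Set.Icc (13 : ℝ) 53 := by
      intro n
      constructor
      · rw [hr, le_div_iff₀ (hpos n)]
        exact_mod_cast hC2 n
      · rw [hr, div_le_iff₀ (hpos n)]
        exact_mod_cast hC3 n
    obtain ⟨L, hL, φ, hφ, hlim⟩ := (isCompact_Icc).tendsto_subseq hrmem
    refine ⟨L, hL.1, hL.2, ⟨fun j => (P (φ j)) ^ 2, fun j => (C (φ j)).card, ?_, ?_, ?_, hlim⟩, ?_⟩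
    · intro i j hij
      exact Nat.pow_lt_pow_left (hPmono (hφ hij)) (by norm_num)
    · intro j
      refine ⟨(hP (φ j)).2.1.isPrimePow.pow (by norm_num), ?_, ?_⟩
      · refine Odd.pow ((hP (φ j)).2.1.odd_of_ne_two ?_)
        have := (hP (φ j)).1
        omega
      · show (P (φ j)) ^ 2 % 3 = 1 % 3
        rw [Nat.pow_mod, (hP (φ j)).2.2]
    · intro j
      exact ⟨F (φ j), instF (φ j), instFF (φ j), hcard (φ j), C (φ j), hC1 (φ j), rfl⟩
    · rintro (h0 | ⟨m, hm, _, hm2⟩)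
      · have := hL.1
        rw [h0] at this
        norm_num at this
      · have h7 := hL.1
        have h8 : (1 : ℝ) / (m : ℝ) ≤ 1 := by
          rw [div_le_one (by exact_mod_cast hm)]
          exact_mod_cast hm
        rw [hm2] at h7
        linarith
  refine ⟨fun p hp hp3 hp100 F _ _ hF => clique p hp hp3 hp100 F hF, key, fun h => ?_⟩
  obtain ⟨x, _, _, hx, hx2⟩ := key
  exact hx2 (h 3 (by norm_num) x hx)

end Pool.Agent.Results.MP_28de5a_co.LimitAboveThirteen
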